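import Mathlib
import Pool.Agent.Lib.MP_8ec8f8_pr.Defs
import Pool.Agent.Lib.MP_8ec8f8_pr.Circle

/-!
Zero-one law for the absolute convergence of the double series attached to the density of the
supremum of a stable process.  The definitions `aCoeff`, `bCoeff`, `seriesTerm`,
`ConvergesAbsolutely` and `convSet` are in `Pool.Agent.Lib.MP_8ec8f8_pr.Defs`.
-/

set_option autoImplicit false

open MeasureTheory Set

namespace Pool.Agent.Results.MP_8ec8f8_pr.ZeroOneLaw

open Pool.Agent.Lib.MP_8ec8f8_pr

/-- **Zero-one law.** For every irrational `α ∈ (0,1) ∪ (1,2)`, the set of `ρ ∈ (0,1)` at which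
the series attached to `(α, ρ)` converges absolutely is measurable and its Lebesgue measure
is `0` or `1`. -/
theorem result (α : ℝ) (hirr : Irrational α) (hα : α ∈ Ioo (0 : ℝ) 1 ∪ Ioo (1 : ℝ) 2) :
    MeasurableSet (convSet α) ∧ (volume (convSet α) = 0 ∨ volume (convSet α) = 1) := by
  have h0 : 0 < α := by
    rcases hα with h | h
    · exact h.1
    · exact one_pos.trans h.1
  have h2 : α < 2 := by
    rcases hα with h | h
    · exact h.2.trans one_lt_two
    · exact h.2
  have h1 : α ≠ 1 := hirr.ne_one
  refine ⟨measurableSet_convSet h0 h1, ?_⟩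
  rw [volume_convSet h0 h1]
  exact volume_S h0 h2 hirr

end Pool.Agent.Results.MP_8ec8f8_pr.ZeroOneLaw
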